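import Pool.Agent.helper15.LC.Spec

open Finset Filter Topology

namespace CO

open Metric

/-- bound for functions with positive real part -/
lemma LYI_bound {F : ℂ → ℂ} {c r : ℝ} (hc : 0 < c) (hr : 0 < r) (hrc : r < c) (hF : DifferentiableOn ℂ F {z : ℂ | 0 < z.re})
    (hpos : ∀ z : ℂ, 0 < z.re → 0 < (F z).re) (hFc : ‖F (c : ℂ)‖ ≤ 2) :
    ∀ w : ℂ, ‖w‖ ≤ r → ‖F ((c : ℂ) + w)‖ ≤ (2 * r + 2 * (c + r)) / (c - r) := by
  have hsub : ∀ w : ℂ, ‖w‖ < c → 0 < ((c : ℂ) + w).re := by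
    intro w hw
    have h1 := Complex.abs_re_le_norm w
    have h2 := neg_abs_le w.re
    simp only [Complex.add_re, Complex.ofReal_re]
    linarith
  intro w hw
  have hd : DifferentiableOn ℂ (fun w : ℂ => -F ((c : ℂ) + w)) (ball 0 c) := by
    refine DifferentiableOn.neg (hF.comp (by fun_prop) ?_)
    intro z hz
    exact hsub z (by simpa using hz)
  have hw' : w ∈ ball (0 : ℂ) c := by simpa using lt_of_le_of_lt hw hrc
  have h := Complex.borelCaratheodory (f := fun w : ℂ => -F ((c : ℂ) + w)) (M := 1) (R := c) one_pos hd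
    (fun z hz => by
      have := hpos _ (hsub z (by simpa using hz))
      simp only [Set.mem_ofPred_eq, Complex.neg_re]
      linarith) hc hw'
  simp only [norm_neg, add_zero] at h
  refine h.trans ?_
  have hcw : 0 < c - ‖w‖ := by linarith
  have hcr : 0 < c - r := by linarith
  have hn := norm_nonneg w
  rw [← add_div, div_le_div_iff₀ hcw hcr]
  have e1 : 2 * 1 * ‖w‖ + ‖F (c : ℂ)‖ * (c + ‖w‖) ≤ 2 * r + 2 * (c + r) := by nlinarith
  have e2 : 0 ≤ 2 * 1 * ‖w‖ + ‖F (c : ℂ)‖ * (c + ‖w‖) := by positivity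
  calc (2 * 1 * ‖w‖ + ‖F (c : ℂ)‖ * (c + ‖w‖)) * (c - r) ≤ (2 * r + 2 * (c + r)) * (c - r) := by
        exact mul_le_mul_of_nonneg_right e1 hcr.le
    _ ≤ (2 * r + 2 * (c + r)) * (c - ‖w‖) := by
        apply mul_le_mul_of_nonneg_left (by linarith)
        positivity

theorem LYI : LYI_stmt := by
  intro A B a κ ha haA hAB hκ
  by_contra hcon
  push Not at hcon
  have hseq : ∀ n : ℕ, ∃ G : ℂ → ℂ, ∃ m : ℝ, DifferentiableOn ℂ G {z : ℂ | 0 < z.re} ∧ (∀ z : ℂ, 0 < z.re → 0 < (G z).re) ∧ 0 ≤ m ∧ m ≤ 1 ∧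
      (∀ x : ℝ, A ≤ x → x ≤ B → ‖G (x : ℂ) - (m : ℂ)‖ ≤ 1 / ((n : ℝ) + 1)) ∧ κ < ‖G (a : ℂ) - (m : ℂ)‖ := by
    intro n
    obtain ⟨F, m, h1, h2, h3, h4, h5, h6⟩ := hcon (1 / ((n : ℝ) + 1)) (by positivity)
    exact ⟨F, m, h1, h2, h3, h4, h5, h6⟩
  choose F m h1 h2 h3 h4 h5 h6 using hseq
  set c : ℝ := (A + B) / 2 with hc
  set r : ℝ := c - a / 2 with hr
  set ρ : ℝ := c - 3 * a / 4 with hρ
  have hc0 : 0 < c := by rw [hc]; linarith
  have hac : a < c := by rw [hc]; linarith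
  have hr0 : 0 < r := by rw [hr]; linarith
  have hrc : r < c := by rw [hr]; linarith
  have hρ0 : 0 < ρ := by rw [hρ]; linarith
  have hρr : ρ < r := by rw [hρ, hr]; linarith
  set M : ℝ := (2 * r + 2 * (c + r)) / (c - r) + 1 with hM
  have hM0 : 0 ≤ M := by
    have : 0 ≤ (2 * r + 2 * (c + r)) / (c - r) := div_nonneg (by positivity) (by linarith)
    linarith
  set G : ℕ → ℂ → ℂ := fun n w => F n ((c : ℂ) + w) - (m n : ℂ) with hG
  have hre : ∀ w : ℂ, ‖w‖ < c → 0 < ((c : ℂ) + w).re := by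
    intro w hw
    have h1 := Complex.abs_re_le_norm w
    have h2 := neg_abs_le w.re
    simp only [Complex.add_re, Complex.ofReal_re]
    linarith
  have hGd : ∀ n, DifferentiableOn ℂ (G n) (ball 0 c) := by
    intro n
    refine DifferentiableOn.sub ((h1 n).comp (by fun_prop) ?_) (by fun_prop)
    intro z hz
    exact hre z (by simpa using hz)
  have hGb : ∀ n, ∀ w : ℂ, ‖w‖ ≤ r → ‖G n w‖ ≤ M := by
    intro n w hw
    have hcA : A ≤ c := by rw [hc]; linarith
    have hcB : c ≤ B := by rw [hc]; linarith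
    have e1 := h5 n c hcA hcB
    have e2 : ‖F n (c : ℂ)‖ ≤ 2 := by
      have e3 : ‖F n (c : ℂ)‖ ≤ ‖F n (c : ℂ) - (m n : ℂ)‖ + ‖(m n : ℂ)‖ := by
        simpa using norm_add_le (F n (c : ℂ) - (m n : ℂ)) (m n : ℂ)
      have e4 : ‖(m n : ℂ)‖ ≤ 1 := by
        rw [Complex.norm_real, Real.norm_eq_abs, abs_of_nonneg (h3 n)]
        exact h4 n
      have e5 : 1 / ((n : ℝ) + 1) ≤ 1 := by
        rw [div_le_one (by positivity)]
        have : (0 : ℝ) ≤ n := Nat.cast_nonneg n
        linarith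
      linarith
    have e6 := LYI_bound hc0 hr0 hrc (h1 n) (h2 n) e2 w hw
    have e4 : ‖(m n : ℂ)‖ ≤ 1 := by
      rw [Complex.norm_real, Real.norm_eq_abs, abs_of_nonneg (h3 n)]
      exact h4 n
    calc ‖G n w‖ ≤ ‖F n ((c : ℂ) + w)‖ + ‖(m n : ℂ)‖ := norm_sub_le _ _
      _ ≤ M := by rw [hM]; linarith
  -- coefficients
  set x : ℕ → ℕ → ℂ := fun n j => ((j.factorial : ℂ))⁻¹ * iteratedDeriv j (G n) 0 with hx
  have hxb : ∀ n j, ‖x n j‖ ≤ M / r ^ j := by
    intro n j
    have e := Complex.norm_iteratedDeriv_le_of_forall_mem_sphere_norm_le (c := 0) (R := r) (C := M) (f := G n) j hr0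
      (DifferentiableOn.diffContOnCl ((hGd n).mono (closure_ball_subset_closedBall.trans (closedBall_subset_ball hrc)))) (fun z hz => hGb n z (by simpa using (mem_sphere.1 hz).le))
    rw [hx]
    simp only [norm_mul, norm_inv, Complex.norm_natCast]
    have hj : (0 : ℝ) < (j.factorial : ℝ) := by exact_mod_cast Nat.factorial_pos j
    rw [inv_mul_le_iff₀ hj]
    calc _ ≤ (j.factorial : ℝ) * M / r ^ j := e
      _ = _ := by ring
  have hsum : ∀ n, ∀ w : ℂ, ‖w‖ < r → HasSum (fun j => x n j * w ^ j) (G n w) := by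
    intro n w hw
    have e := Complex.hasSum_taylorSeries_on_ball (f := G n) (c := 0) (r := r) ((hGd n).mono (ball_subset_ball hrc.le)) (z := w) (by simpa using hw)
    have e2 : (fun j : ℕ => x n j * w ^ j) = fun j : ℕ => ((j.factorial : ℂ))⁻¹ • (w - 0) ^ j • iteratedDeriv j (G n) 0 := by
      funext j
      simp only [hx, sub_zero, smul_eq_mul]
      ring
    rw [e2]
    exact e
  -- compactness
  have hK : IsCompact (Set.pi Set.univ fun j : ℕ => closedBall (0 : ℂ) (M / r ^ j)) :=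
    isCompact_univ_pi fun j => isCompact_closedBall _ _
  obtain ⟨g, hg, φ, hφ, hlim⟩ := hK.tendsto_subseq (x := x) (fun n => by
    rw [Set.mem_univ_pi]
    intro j
    simpa using hxb n j)
  have hgb : ∀ j, ‖g j‖ ≤ M / r ^ j := by
    intro j
    have := (Set.mem_univ_pi.1 hg) j
    simpa using this
  have hlimj : ∀ j, Tendsto (fun n => x (φ n) j) atTop (𝓝 (g j)) := by
    intro j
    exact (tendsto_pi_nhds.1 hlim) j
  set H : ℂ → ℂ := fun w => ∑' j, g j * w ^ j with hH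
  have hratio : ∀ w : ℂ, ‖w‖ < ρ → ∀ (y : ℂ) (j : ℕ), ‖y‖ ≤ M / r ^ j → ‖y * w ^ j‖ ≤ M * (ρ / r) ^ j := by
    intro w hw y j hy
    rw [norm_mul, norm_pow, div_pow]
    have hrj : 0 < r ^ j := by positivity
    calc ‖y‖ * ‖w‖ ^ j ≤ M / r ^ j * ρ ^ j := by
          apply mul_le_mul hy (pow_le_pow_left₀ (norm_nonneg _) hw.le j) (by positivity) (by positivity)
      _ = _ := by ring
  have hsm : Summable fun j : ℕ => M * (ρ / r) ^ j :=
    (summable_geometric_of_lt_one (by positivity) ((div_lt_one hr0).2 hρr)).mul_left M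
  have hconv : ∀ w : ℂ, ‖w‖ < ρ → Tendsto (fun n => G (φ n) w) atTop (𝓝 (H w)) := by
    intro w hw
    have e := tendsto_tsum_of_dominated_convergence (𝓕 := atTop) (f := fun (n : ℕ) (j : ℕ) => x (φ n) j * w ^ j)
      (g := fun j => g j * w ^ j) hsm (fun j => (hlimj j).mul_const _)
      (Eventually.of_forall fun n j => hratio w hw _ j (hxb (φ n) j))
    refine e.congr fun n => ?_
    exact (hsum (φ n) w (hw.trans hρr)).tsum_eq
  have hHd : DifferentiableOn ℂ H (ball 0 ρ) := by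
    refine Complex.differentiableOn_tsum_of_summable_norm hsm (fun j => by fun_prop) isOpen_ball ?_
    intro j w hw
    exact hratio w (by simpa using hw) _ j (hgb j)
  have hHan : AnalyticOnNhd ℂ H (ball 0 ρ) := hHd.analyticOnNhd isOpen_ball
  -- zero on real points
  have hHz : ∀ t : ℝ, 0 ≤ t → t ≤ (B - A) / 2 → t < ρ → H (t : ℂ) = 0 := by
    intro t ht0 ht1 ht2
    have e1 := hconv (t : ℂ) (by rw [Complex.norm_real, Real.norm_eq_abs, abs_of_nonneg ht0]; exact ht2)
    have e2 : Tendsto (fun n => G (φ n) (t : ℂ)) atTop (𝓝 0) := by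
      rw [tendsto_zero_iff_norm_tendsto_zero]
      refine squeeze_zero (fun n => norm_nonneg _) (fun n => ?_)
        ((tendsto_one_div_add_atTop_nhds_zero_nat (𝕜 := ℝ)).comp hφ.tendsto_atTop)
      have e3 := h5 (φ n) (c + t) (by rw [hc]; linarith) (by rw [hc]; linarith)
      simpa [hG] using e3
    exact tendsto_nhds_unique e1 e2
  have hfreq : ∃ᶠ z in 𝓝[≠] (0 : ℂ), H z = 0 := by
    set s : ℝ := min ((B - A) / 2) (ρ / 2) with hs
    have hs0 : 0 < s := lt_min (by linarith) (by linarith)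
    have hl : Tendsto (fun k : ℕ => ((s * (1 / ((k : ℝ) + 1)) : ℝ) : ℂ)) atTop (𝓝[≠] (0 : ℂ)) := by
      refine tendsto_nhdsWithin_iff.2 ⟨?_, Eventually.of_forall fun k => ?_⟩
      · have e1 : Tendsto (fun k : ℕ => s * (1 / ((k : ℝ) + 1))) atTop (𝓝 (s * 0)) :=
          (tendsto_one_div_add_atTop_nhds_zero_nat (𝕜 := ℝ)).const_mul s
        rw [mul_zero] at e1
        have e2 := (Complex.continuous_ofReal.tendsto 0).comp e1
        rw [Complex.ofReal_zero] at e2
        exact e2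
      · have : s * (1 / ((k : ℝ) + 1)) ≠ 0 := by positivity
        exact Complex.ofReal_ne_zero.2 this
    refine hl.frequently (Frequently.of_forall fun k => ?_)
    have hk : s * (1 / ((k : ℝ) + 1)) ≤ s := by
      have : 1 / ((k : ℝ) + 1) ≤ 1 := by
        rw [div_le_one (by positivity)]
        have : (0 : ℝ) ≤ k := Nat.cast_nonneg k
        linarith
      nlinarith
    have h7 : s ≤ (B - A) / 2 := min_le_left _ _
    have h8 : s ≤ ρ / 2 := min_le_right _ _
    exact hHz _ (by positivity) (hk.trans h7) (by linarith)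
  have hEq := hHan.eqOn_zero_of_preconnected_of_frequently_eq_zero (convex_ball (0 : ℂ) ρ).isPreconnected
    (mem_ball_self hρ0) hfreq
  have hya : ‖((a : ℂ) - (c : ℂ))‖ < ρ := by
    rw [← Complex.ofReal_sub, Complex.norm_real, Real.norm_eq_abs, abs_of_neg (by linarith)]
    rw [hρ]; linarith
  have hHa : H ((a : ℂ) - (c : ℂ)) = 0 := hEq (by simpa using hya)
  have hfin := hconv _ hya
  rw [hHa] at hfin
  have hfin2 := hfin.norm
  rw [norm_zero] at hfin2
  have hge : ∀ n, κ ≤ ‖G (φ n) ((a : ℂ) - (c : ℂ))‖ := by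
    intro n
    have := (h6 (φ n)).le
    simpa [hG] using this
  have := ge_of_tendsto' hfin2 hge
  linarith

end CO
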