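import Pool.Agent.helper15.LC.Spec

open Finset Filter Topology CU

namespace CO

lemma PRB_point (m k' k3 k1 a y : ℝ) (hm0 : 0 < m) (hm1 : m ≤ 1) (hk' : 0 < k') (hk'm : k' ≤ m / 4) (hk3 : k3 = k' * m) (hk1 : 0 < k1)
    (ha : 0 < a) (hy : |y| ≤ 1) :
    (m - k') - 2 / k3 * ((m + k1) ^ 2 - y ^ 2) - 2 / k3 * (Real.exp (-a * (m + k1)) * Real.exp (a * y)) -
      (2 / k3 + 2) * (Real.exp (-a * (m - k')) * Real.exp (-(a * y))) ≤ y := by
  have hk3' : 0 < k3 := by rw [hk3]; positivity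
  obtain ⟨hy1, hy2⟩ := abs_le.1 hy
  set P : ℝ := Real.exp (-a * (m + k1)) * Real.exp (a * y) with hP
  set Q : ℝ := Real.exp (-a * (m - k')) * Real.exp (-(a * y)) with hQ
  have hP0 : 0 ≤ P := by positivity
  have hQ0 : 0 ≤ Q := by positivity
  have hP1 : m + k1 ≤ y → 1 ≤ P := by
    intro h
    rw [hP, ← Real.exp_add]
    apply Real.one_le_exp
    nlinarith
  have hQ1 : y ≤ -(m - k') → 1 ≤ Q := by
    intro h
    rw [hQ, ← Real.exp_add]
    apply Real.one_le_exp
    nlinarith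
  have hb : 0 < 2 / k3 := by positivity
  have hy2' : y ^ 2 ≤ 1 := by nlinarith
  -- case analysis
  by_cases hq : y ≤ -(m - k')
  · have h1 := hQ1 hq
    have h2 : 0 ≤ (m + k1) ^ 2 - y ^ 2 + Q := by nlinarith [sq_nonneg (m + k1)]
    have h3 : 0 ≤ 2 / k3 * ((m + k1) ^ 2 - y ^ 2 + Q) := by positivity
    have h4 : 0 ≤ 2 / k3 * P := by positivity
    nlinarith
  · push Not at hq
    by_cases he : y ^ 2 < m ^ 2 - k3
    · have h2 : k3 ≤ (m + k1) ^ 2 - y ^ 2 := by nlinarith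
      have h3 : 2 ≤ 2 / k3 * ((m + k1) ^ 2 - y ^ 2) := by
        calc (2 : ℝ) = 2 / k3 * k3 := by field_simp
          _ ≤ _ := by gcongr
      have h4 : 0 ≤ 2 / k3 * P := by positivity
      have h5 : 0 ≤ (2 / k3 + 2) * Q := by positivity
      linarith
    · push Not at he
      have h1 : m - k' ≤ y := by
        by_contra hc
        push Not at hc
        have : y ^ 2 < (m - k') ^ 2 := by nlinarith
        have h6 : (m - k') ^ 2 ≤ m ^ 2 - k3 := by rw [hk3]; nlinarith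
        linarith
      have h5 : 0 ≤ (2 / k3 + 2) * Q := by positivity
      have h7 : 0 ≤ (m + k1) ^ 2 - y ^ 2 + P := by
        by_cases hu : m + k1 ≤ y
        · have := hP1 hu
          nlinarith [sq_nonneg (m + k1)]
        · push Not at hu
          nlinarith
      have h8 : 0 ≤ 2 / k3 * ((m + k1) ^ 2 - y ^ 2 + P) := by positivity
      have h9 : 2 / k3 * ((m + k1) ^ 2 - y ^ 2 + P) = 2 / k3 * ((m + k1) ^ 2 - y ^ 2) + 2 / k3 * P := by ring
      linarith

theorem PRB : PRB_stmt := by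
  intro m m₁ ε hm₁ hmm hm1 hε
  have hm0 : 0 < m := by linarith
  set e : ℝ := min ε 1 with he
  have he0 : 0 < e := lt_min hε one_pos
  have he1 : e ≤ 1 := min_le_right _ _
  have heε : e ≤ ε := min_le_left _ _
  set k' : ℝ := min (e / 4) (m₁ / 4) with hk'
  have hk'0 : 0 < k' := lt_min (by positivity) (by positivity)
  have hk'e : k' ≤ e / 4 := min_le_left _ _
  have hk'm : k' ≤ m₁ / 4 := min_le_right _ _
  set k3 : ℝ := k' * m with hk3
  have hk30 : 0 < k3 := by positivity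
  have hk31 : k3 ≤ 1 := by nlinarith
  set k1 : ℝ := e * k3 / 100 with hk1
  have hk10 : 0 < k1 := by positivity
  have hk11 : k1 ≤ 1 := by
    have : e * k3 ≤ 1 := by nlinarith
    rw [hk1]; linarith
  set κ : ℝ := min (k1 / 2) (m₁ / 4) with hκ
  have hκ0 : 0 < κ := lt_min (by positivity) (by positivity)
  have hκ1 : κ ≤ k1 / 2 := min_le_left _ _
  have hκm : κ ≤ m₁ / 4 := min_le_right _ _
  -- choice of a
  have ht : Tendsto (fun a : ℝ => 2 / k3 * Real.exp (-(a * (k1 / 2))) + (2 / k3 + 2) * (2 * Real.exp (-(a * m₁)))) atTop (𝓝 (2 / k3 * 0 + (2 / k3 + 2) * (2 * 0))) := by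
    refine Tendsto.add (Tendsto.const_mul _ ?_) (Tendsto.const_mul _ (Tendsto.const_mul _ ?_))
    · exact Real.tendsto_exp_neg_atTop_nhds_zero.comp (tendsto_id.atTop_mul_const (by positivity))
    · exact Real.tendsto_exp_neg_atTop_nhds_zero.comp (tendsto_id.atTop_mul_const hm₁)
  have ht0 : 2 / k3 * 0 + (2 / k3 + 2) * (2 * (0 : ℝ)) = 0 := by ring
  rw [ht0] at ht
  have hev := (ht.eventually (gt_mem_nhds (show (0 : ℝ) < e / 5 by positivity))).and (eventually_gt_atTop (0 : ℝ))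
  obtain ⟨a, ha1, ha0⟩ := hev.exists
  refine ⟨a, κ, ha0, hκ0, ?_⟩
  intro X _ w Y hw hS hY h2 hp hn
  set S : ℝ := ∑ x, w x with hSdef
  have hpt : ∀ x, w x * ((m - k') - 2 / k3 * ((m + k1) ^ 2 - Y x ^ 2) - 2 / k3 * (Real.exp (-a * (m + k1)) * Real.exp (a * Y x)) -
      (2 / k3 + 2) * (Real.exp (-a * (m - k')) * Real.exp (-(a * Y x)))) ≤ w x * Y x := by
    intro x
    exact mul_le_mul_of_nonneg_left (PRB_point m k' k3 k1 a (Y x) hm0 hm1 hk'0 (by linarith) hk3 hk10 ha0 (hY x)) (hw x)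
  have hsum := Finset.sum_le_sum (s := univ) fun x _ => hpt x
  have hexp : ∑ x, w x * ((m - k') - 2 / k3 * ((m + k1) ^ 2 - Y x ^ 2) - 2 / k3 * (Real.exp (-a * (m + k1)) * Real.exp (a * Y x)) -
      (2 / k3 + 2) * (Real.exp (-a * (m - k')) * Real.exp (-(a * Y x)))) =
      (m - k') * S - 2 / k3 * ((m + k1) ^ 2 * S - ∑ x, w x * Y x ^ 2) - 2 / k3 * (Real.exp (-a * (m + k1)) * ∑ x, w x * Real.exp (a * Y x)) -
      (2 / k3 + 2) * (Real.exp (-a * (m - k')) * ∑ x, w x * Real.exp (-(a * Y x))) := by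
    rw [hSdef]
    simp only [Finset.mul_sum, ← Finset.sum_sub_distrib]
    refine Finset.sum_congr rfl fun x _ => ?_
    ring
  rw [hexp] at hsum
  refine le_trans ?_ hsum
  have hA : 2 / k3 * ((m + k1) ^ 2 * S - ∑ x, w x * Y x ^ 2) ≤ (7 * e / 100) * S := by
    have h3 : (m + k1) ^ 2 * S - ∑ x, w x * Y x ^ 2 ≤ (7 / 2 * k1) * S := by
      have h4 : (m + k1) ^ 2 - (m ^ 2 - κ) ≤ 7 / 2 * k1 := by nlinarith
      nlinarith
    calc 2 / k3 * ((m + k1) ^ 2 * S - ∑ x, w x * Y x ^ 2) ≤ 2 / k3 * ((7 / 2 * k1) * S) := by gcongr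
      _ = (7 * e / 100) * S := by rw [hk1]; field_simp
  have hB : Real.exp (-a * (m + k1)) * ∑ x, w x * Real.exp (a * Y x) ≤ Real.exp (-(a * (k1 / 2))) * S := by
    calc Real.exp (-a * (m + k1)) * ∑ x, w x * Real.exp (a * Y x) ≤ Real.exp (-a * (m + k1)) * (Real.exp (a * (m + κ)) * S) := by gcongr
      _ = Real.exp (-a * (m + k1) + a * (m + κ)) * S := by rw [Real.exp_add]; ring
      _ ≤ Real.exp (-(a * (k1 / 2))) * S := by
        apply mul_le_mul_of_nonneg_right _ hS.le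
        apply Real.exp_le_exp.2
        nlinarith
  have hC : Real.exp (-a * (m - k')) * ∑ x, w x * Real.exp (-(a * Y x)) ≤ 2 * Real.exp (-(a * m₁)) * S := by
    calc Real.exp (-a * (m - k')) * ∑ x, w x * Real.exp (-(a * Y x))
        ≤ Real.exp (-a * (m - k')) * (2 * Real.exp (-a * (2 * m₁ - κ)) * (Real.exp (a * (m + κ)) * S)) := by
          refine mul_le_mul_of_nonneg_left (hn.trans ?_) (Real.exp_pos _).le
          gcongr
      _ = 2 * Real.exp (-a * (m - k') + -a * (2 * m₁ - κ) + a * (m + κ)) * S := by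
          rw [Real.exp_add, Real.exp_add]; ring
      _ ≤ 2 * Real.exp (-(a * m₁)) * S := by
          apply mul_le_mul_of_nonneg_right _ hS.le
          apply mul_le_mul_of_nonneg_left _ (by norm_num)
          apply Real.exp_le_exp.2
          nlinarith
  have hB' : 2 / k3 * (Real.exp (-a * (m + k1)) * ∑ x, w x * Real.exp (a * Y x)) ≤ (2 / k3 * Real.exp (-(a * (k1 / 2)))) * S := by
    rw [mul_assoc (2 / k3)]
    exact mul_le_mul_of_nonneg_left hB (by positivity)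
  have hC' : (2 / k3 + 2) * (Real.exp (-a * (m - k')) * ∑ x, w x * Real.exp (-(a * Y x))) ≤ ((2 / k3 + 2) * (2 * Real.exp (-(a * m₁)))) * S := by
    rw [mul_assoc (2 / k3 + 2)]
    exact mul_le_mul_of_nonneg_left hC (by positivity)
  have hD : (2 / k3 * Real.exp (-(a * (k1 / 2))) + (2 / k3 + 2) * (2 * Real.exp (-(a * m₁)))) * S ≤ e / 5 * S :=
    mul_le_mul_of_nonneg_right ha1.le hS.le
  nlinarith

end CO
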