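import Pool.Agent.helper23.CO.SpecC

/-!
# Project lc (MP_7c3fb3_pr): left-continuity of the spontaneous magnetisation at EVERY `β > β_c`, any `d ≥ 1`

THEOREM.  `0 ≤ b₁ < β`, `0 < ms d b₁` implies `LC d β`.  So project co gives: no cutoff at `(β, 0)` for EVERY `β > β_c`, `d ≥ 2`.

Idea.  STEP 1 (energy).  FKG: `s_x + s_y - s_x s_y` is increasing, so the field `2 d δ` compensates a decrease of the coupling by `δ`; near `(β, 0)` the magnetisation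
`x ↦ mT (β - δ) (x δ)` is close to `m = ms d β` for `x ∈ [2d+1, 2d+2]`, and by Lee-Yang (the magnetisation is analytic with positive real part in `Re h > 0`) for every
`x > 0`.  By FKG such a state has almost the energy of the plus state, and by convexity the energy of the free state at `β` is that of the plus state.
STEP 2.  The ratio `E exp (-a X) / E exp (a X)` (`X` = block magnetisation) is nonincreasing in the couplings (Ginibre, Lebowitz-Pfister).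

As in `CO/Spec.lean`: a module file is `Pool/Agent/<seat>/LC/XX.lean`, imports this file, namespace `CO`, `theorem XX (h : YY_stmt) ... : XX_stmt`; other rows only as
hypotheses; auxiliary lemmas prefixed by `XX_`.  `s_x = sg (σ x)`.
-/

open Finset Filter Topology

namespace CO

open CU

section defs
variable {V : Type} [Fintype V] [DecidableEq V]

/-- partition sum with complex fields `g`, plus on `A` -/
noncomputable def NCx (c : (V → Bool) → ℝ) (A : Finset V) (g : V → ℂ) : ℂ :=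
  ∑ σ ∈ pl A, (c σ : ℂ) * Complex.exp (∑ x, g x * (sg (σ x) : ℂ))

/-- no zeros if all fields have positive real part, also with some spins fixed to plus -/
def NVx (c : (V → Bool) → ℝ) : Prop := ∀ (A : Finset V) (g : V → ℂ), (∀ x, 0 < (g x).re) → NCx c A g ≠ 0

end defs

section defs
variable {d n : ℕ} [NeZero n]

/-- coupling `b` on the bonds inside `R`, no other coupling (free boundary condition) -/
noncomputable def KF (b : ℝ) (R : Finset (Site d n)) (x y : Site d n) : ℝ :=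
  if x ∈ R ∧ y ∈ R then KT b (fun _ => 0) x y else 0

/-- coupling `b` on the bonds inside `R`, coupling `b₁` on all other bonds -/
noncomputable def KW (b b₁ : ℝ) (R : Finset (Site d n)) (x y : Site d n) : ℝ :=
  if x ∈ R ∧ y ∈ R then KT b (fun _ => 0) x y else KT b₁ (fun _ => 0) x y

/-- magnetisation of the block of radius `r` -/
noncomputable def mB (r : ℕ) (σ : Conf d n) : ℝ := (∑ x ∈ Box r (0 : Site d n), sg (σ x)) / ((Box r (0 : Site d n)).card : ℝ)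

/-- energy per site of the box of radius `L` with plus boundary condition -/
noncomputable def uP (d n : ℕ) [NeZero n] (b : ℝ) (L : ℕ) : ℝ :=
  ∑ i : Fin d, exA (KT b fun _ => 0) (fun _ => 0) (univ \ Box L (0 : Site d n)) (fun σ => sg (σ 0) * sg (σ (ev i)))

/-- energy per site of the box of radius `L` with free boundary condition -/
noncomputable def uF (d n : ℕ) [NeZero n] (b : ℝ) (L : ℕ) : ℝ :=
  ∑ i : Fin d, ex (KF b (Box L (0 : Site d n))) (fun _ => 0) (fun σ => sg (σ 0) * sg (σ (ev i)))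

/-- partition function of the torus in zero field -/
noncomputable def Zt (d n : ℕ) [NeZero n] (b : ℝ) : ℝ := ∑ σ : Conf d n, Real.exp (CWM.HH (KT b fun _ => 0) (fun _ => 0) σ)

end defs

/-! ## A. Lee-Yang -/

/-- **LYA** (complex numbers).  (1) `|β| ≤ |α|` (otherwise `w = -β/α` is a zero with `|w| > 1`), `|γ| ≤ |α|`.  (2) `|w| > 1`: `(α w + β) z + (γ w + δ) ≠ 0` for all `|z| > 1` and `α w + β ≠ 0` give
`|γ w + δ| ≤ |α w + β|`; by continuity for all `|w| ≥ 1`; in the same way `|β z + δ| ≤ |α z + γ|` for `|z| ≥ 1`.  (3) With `|w| = 1`, `w` and `-w` resp. the best `w`: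
`X + Y ≥ 2 |γ conj δ - α conj β|`, `X = |α|² - |δ|²`, `Y = |β|² - |γ|²`; the second family gives `X - Y ≥ 0`.  (4) Let `|w| = R > 1`.  Claim: `|t γ w + δ| ≤ |α w + t β|`; since `|α w| > |α| ≥ |t β|`,
`α w + t β ≠ 0`, and `(α w + t β) z + (t γ w + δ) ≠ 0` for `|z| > 1` follows.  If `t R ≥ 1`: by (2) at `t w`: `|γ t w + δ| ≤ |α t w + β|`, and `|α w + t β|² - |α t w + β|² = (1-t²)(R²|α|² - |β|²) ≥ 0`.
If `t R ≤ 1`: `|α w + t β|² - |t γ w + δ|² = R²|α|² + t²|β|² - t²R²|γ|² - |δ|² - 2 t Re ((γ conj δ - α conj β) w) ≥ R²|α|² + t²|β|² - t²R²|γ|² - |δ|² - t R (X + Y)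
= (R - t)(R|α|² - t|β|²) - (1 - tR)(|δ|² - tR|γ|²)`; insert `|δ|² ≤ |α|² + tR (|γ|² - |β|²)` (a convex combination of `X + Y ≥ 0`, `X - Y ≥ 0`): `≥ (R² - 1)(|α|² - t²|β|²) ≥ 0`. -/
def LYA_stmt : Prop := ∀ (α β γ δ : ℂ) (t : ℝ), 0 < t → t ≤ 1 → α ≠ 0 → (∀ w : ℂ, 1 < ‖w‖ → α * w + β ≠ 0) → (∀ z : ℂ, 1 < ‖z‖ → α * z + γ ≠ 0) →
  (∀ z w : ℂ, 1 < ‖z‖ → 1 < ‖w‖ → α * z * w + β * z + γ * w + δ ≠ 0) →
  ∀ z w : ℂ, 1 < ‖z‖ → 1 < ‖w‖ → α * z * w + t * β * z + t * γ * w + δ ≠ 0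

/-- **LYS** (uses LYA).  One more ferromagnetic coupling.  `a = b`: a constant factor.  If `a, b ∈ A`: a constant factor.  If `a ∈ A`, `b ∉ A` (or the other way): the factor is `exp (k s_b)`, the field at `b` becomes
`g_b + k`.  If `a ≠ b`, `a, b ∉ A`: let `α, β, γ, δ` be the partial sums over `(s_a, s_b) = (+,+), (+,-), (-,+), (-,-)` without the fields at `a, b`; `z = exp (2 g_a)`, `w = exp (2 g_b)`:
`NCx c A g = exp (-g_a - g_b) (α z w + β z + γ w + δ)`, `NCx c (insert a A) g = exp (g_a - g_b) (α w + β)`, `NCx c (insert b A) g = exp (g_b - g_a) (α z + γ)`, `NCx c (insert a (insert b A)) g = exp (g_a + g_b) α`,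
and the new sum is `exp (k - g_a - g_b) (α z w + t β z + t γ w + δ)`, `t = exp (-2k)`.  Every `|z| > 1` is `exp (2 u)` with `Re u > 0`; change `g` at `a`, `b`. -/
def LYS_stmt : Prop := ∀ (V : Type) [Fintype V] [DecidableEq V] (c : (V → Bool) → ℝ), NVx c → ∀ (a b : V) (k : ℝ), 0 ≤ k →
  NVx fun σ => c σ * Real.exp (k * (sg (σ a) * sg (σ b)))

/-- **LYB** (Lee-Yang theorem; uses LYS).  Induction over a finite set of pairs `T ⊆ V × V`: `c_T σ = exp (∑_{p ∈ T} K p s s)`.  `c = 1`: `NCx 1 A g = ∏_{x ∈ A} exp (g x) ∏_{x ∉ A} (exp (g x) + exp (-g x))`,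
`|exp (g x)| > 1 > |exp (-g x)|`. -/
def LYB_stmt : Prop := ∀ (V : Type) [Fintype V] [DecidableEq V] (K : V → V → ℝ), (∀ x y, 0 ≤ K x y) →
  NVx fun σ => Real.exp (CWM.HH K (fun _ => 0) σ)

/-- **LYC** (uses LYB).  `F z = ∑_σ exp (H σ + z ∑_y s_y) s_{x₀} / ∑_σ exp (H σ + z ∑_y s_y)`, `H = HH K 0`; the denominator is `NCx c ∅ (fun _ => z) ≠ 0`.  With the other fields equal to `z`, `P` (resp. `Q`) the partial sum with `s_{x₀} = +`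
(resp. `-`) without the field at `x₀`: `exp u P + exp (-u) Q ≠ 0` for all `Re u > 0` and `P ≠ 0` (`A = {x₀}`) give `|Q| ≤ |P|`; `Re F(z) |N|² = |exp z P|² - |exp (-z) Q|² > 0`. -/
def LYC_stmt : Prop := ∀ (V : Type) [Fintype V] [DecidableEq V] (K : V → V → ℝ) (x₀ : V), (∀ x y, 0 ≤ K x y) → ∃ F : ℂ → ℂ,
  DifferentiableOn ℂ F {z : ℂ | 0 < z.re} ∧ (∀ z : ℂ, 0 < z.re → 0 < (F z).re) ∧
  ∀ h : ℝ, 0 < h → F (h : ℂ) = ((ex K (fun _ => h) (fun σ => sg (σ x₀)) : ℝ) : ℂ)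

/-- **LYI** (function theory).  `c = (A+B)/2`, `r = c - a/2`, `ρ = r/c < 1`.  If `ε ≤ 1` then `|F c| ≤ 2`; `φ = (F - F c)/(F + conj (F c))` maps the disc `|z - c| < c` to the unit disc, `φ c = 0`, so by the Schwarz
lemma `|φ z| ≤ |z - c|/c` and `|F z| ≤ 2 (1+ρ)/(1-ρ) =: M` for `|z - c| ≤ r`.  Power series at `c` with `|f_k| ≤ M r^(-k)` (Cauchy).  For `0 < s ≤ r/2`, `c + s ≤ B`, `k ≥ 1`:
`|f_k| s^k ≤ |F (c+s) - m| + |f_0 - m| + ∑_{1 ≤ j < k} |f_j| s^j + ∑_{j > k} M (s/r)^j`, so `|f_k| r^k ≤ (r/s)^k (2ε + ∑_{1 ≤ j < k} |f_j| s^j) + 2 M s/r`: by induction on `k`, for every `η > 0` there is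
`ε > 0` with `|f_k| r^k ≤ η` for all such `F`.  `|F a - m| ≤ ε + ∑_{1 ≤ k < k₀} |f_k| (c-a)^k + ∑_{k ≥ k₀} M ((c-a)/r)^k` and `c - a < r`. -/
def LYI_stmt : Prop := ∀ A B a κ : ℝ, 0 < a → a < A → A < B → 0 < κ → ∃ ε : ℝ, 0 < ε ∧ ∀ (F : ℂ → ℂ) (m : ℝ), DifferentiableOn ℂ F {z : ℂ | 0 < z.re} →
  (∀ z : ℂ, 0 < z.re → 0 < (F z).re) → 0 ≤ m → m ≤ 1 → (∀ x : ℝ, A ≤ x → x ≤ B → ‖F (x : ℂ) - (m : ℂ)‖ ≤ ε) → ‖F (a : ℂ) - (m : ℂ)‖ ≤ κ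

/-! ## B. The magnetisation near `(b, 0)` -/

/-- **MSH** (uses STO, CAB, HHT).  `(b - δ) HN + (h + 2dδ) Mg = b HN + h Mg + δ φ`, `φ = ∑_{x,i} (s_x + s_{x+e_i} - s_x s_{x+e_i})` increasing (`s + s' - s s' = 1 - (1-s)(1-s')`; `∑_{x,i} (s_x + s_{x+e_i}) = 2 d Mg`).
`Hol P Q` for `P = exp (b HN + h Mg)`, `Q = P exp (δ φ)`: `s s'` is supermodular (`CU.VA`), `Mg` is additive, `φ τ ≤ φ (σ ⊔ τ)`.  `mT = aw P s_0 = ca P ∅ s_0`. -/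
def MSH_stmt : Prop := ∀ (d n : ℕ) [NeZero n] (b δ h : ℝ), 0 ≤ b → 0 ≤ δ → mT d n b h ≤ mT d n (b - δ) (h + 2 * d * δ)

/-- **MUP** (uses UPA, MSP, GKW, `CU.VF_stmt`).  `L` with `ML d b L ≤ ms d b + κ/2` (MSP), `T = h1` with `2 (exp (6 h1 (2L+1)^d) - 1) ≤ κ/2`; UPA with `A = ∅`, `J = 0`, `x = 0` (`exA _ _ ∅ = ex`, GKW), `ExD b (Box L 0) s_0 = ML d b L` for `n ≥ 2L` (VF). -/
def MUP_stmt : Prop := ∀ (d : ℕ) (b κ : ℝ), 0 ≤ b → 0 < κ → ∃ h1 : ℝ, 0 < h1 ∧ ∀ᶠ n : ℕ in atTop, ∀ h : ℝ, 0 ≤ h → h ≤ h1 → mT d (n + 3) b h ≤ ms d b + κ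

/-- **KEY** (uses LYC, LYI, MSH, MUP, BAS, MSP, GKW).  `A = 2d+1`, `B = 2d+2`, `m = ms d b`.  For `a ≥ A`: `mT (b-δ) (a δ) ≥ mT (b-δ) (A δ)` (GKW, or LPI), so let `a < A`, `ε` from LYI.  For `x ∈ [A,B]`:
`mT (b-δ) (x δ) ≥ mT b ((x-2d) δ) ≥ mT b δ ≥ m - ε` for `n` large (MSH, BAS), and `mT (b-δ) (x δ) ≤ mT b (B δ) ≤ m + ε` for `B δ ≤ h1`, `n` large (MUP).  LYC for `K = KT (b-δ) 0`, `x₀ = 0`; apply LYI to
`z ↦ F (δ z)`: `F (δ x) = mT (b-δ) (x δ)`. -/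
def KEY_stmt : Prop := ∀ (d : ℕ) (b a κ : ℝ), 1 ≤ d → 0 < b → 0 < a → 0 < κ → ∃ δ₀ : ℝ, 0 < δ₀ ∧ δ₀ ≤ b ∧ ∀ δ : ℝ, 0 < δ → δ ≤ δ₀ → ∀ᶠ n : ℕ in atTop,
  ms d b - κ ≤ mT d (n + 3) (b - δ) (a * δ)

/-! ## C. The energy is continuous -/

/-- **TRX** (translation).  The map `σ ↦ σ (· - a)`, a bijection of `pl A` with `pl A'`; `HH K' h (σ (· - a)) = HH K h σ`. -/
def TRX_stmt : Prop := ∀ (d n : ℕ) [NeZero n] (a : Site d n) (K K' : Site d n → Site d n → ℝ) (h : ℝ) (A A' : Finset (Site d n)) (f : Conf d n → ℝ),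
  (∀ x y, K' (x + a) (y + a) = K x y) → (∀ x, x + a ∈ A' ↔ x ∈ A) →
  exA K' (fun _ => h) A' f = exA K (fun _ => h) A (fun σ => f (fun x => σ (x - a))) ∧
  ex K' (fun _ => h) f = ex K (fun _ => h) (fun σ => f (fun x => σ (x - a)))

/-- **EPL** (uses KEY, UPA, MSP, PTB, STO, CAB, GKW, TRI, HHT, `CU.VF_stmt`, `CU.BC_stmt`).  `κ₁ = κ/(16 d)`, `m = ms d b`, `L₁` with `ML d b L₁ ≤ m + κ₁`, `L = L₁ + 1`, `A = univ \ Box L 0`, `h = a δ`, `b' = b - δ`, `δ` small.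
(i) `exA (KT b') h A s_x ≤ exA (KT b) h A s_x ≤ m + 2 κ₁` for `x = 0` and `x = e_i` (GKW, UPA with `L₁`, `T = h`: no point of `A` is `Near L₁ e_i`), and `mT b' h ≥ m - κ₁` (KEY; `= ex s_{e_i}`, TRI).  (ii) FKG (STO): for the increasing
function `f = s_0 + s_{e_i} - s_0 s_{e_i}`, `ex f ≤ exA A f` (both at `b', h`; `ex f` is the average of the conditional expectations off the box, each `≤` the one with plus), so `ex (s_0 s_{e_i}) ≥ exA A (s_0 s_{e_i}) - 6 κ₁`.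
(iii) PTB on `S = pl A`, `w = exp (b HN)`, `ψ = -δ HN + h Mg`: up to a constant `|ψ| ≤ (2 d δ + a δ) |Box L 0|`; so `exA (KT b') h A (s_0 s_{e_i}) ≥ exA (KT b) 0 A (s_0 s_{e_i}) - κ₁` for `δ` small. -/
def EPL_stmt : Prop := ∀ (d : ℕ) (b a κ : ℝ), 1 ≤ d → 0 < b → 0 < a → 0 < κ → ∃ L : ℕ, ∃ δ : ℝ, 1 ≤ L ∧ 0 < δ ∧ δ ≤ b ∧ ∀ᶠ n : ℕ in atTop,
  uP d (n + 3) b L - κ ≤ ∑ i : Fin d, cT (d := d) (n := n + 3) (b - δ) (fun _ => 0) (a * δ) (ev i)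

/-- **JEN** (uses LZ, TRI, HHT, GK2).  `N = card (Site d n)`.  LZ with `A = (b-δ) HN + h Mg`, `B = δ HN - h Mg`, `t = 1`: `log Zt b - log Z(b-δ,h) ≥ ⟨δ HN - h Mg⟩_{b-δ,h} = N (δ ∑ c(e_i) - h mT)` (TRI).  LZ with `A = (b-δ) HN`, `B = Mg`, `t = h`:
`log Z(b-δ,h) ≥ log Zt (b-δ) + h ⟨Mg⟩_{b-δ,0} ≥ log Zt (b-δ)` (GK2). -/
def JEN_stmt : Prop := ∀ (d n : ℕ) [NeZero n] (b δ h : ℝ), 0 ≤ δ → δ ≤ b → 0 ≤ h →
  (Fintype.card (Site d n) : ℝ) * (δ * (∑ i : Fin d, cT (d := d) (n := n) (b - δ) (fun _ => 0) h (ev i)) - h * mT d n (b - δ) h) ≤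
    Real.log (Zt d n b) - Real.log (Zt d n (b - δ))

/-- **FAC** (product structure).  `HH K 0 σ = HH (K 1_{R×R}) 0 σ + G σ`, `G` depends only on `σ` off `R`; split `σ` into its parts on `R` and off `R`; the second factor cancels. -/
def FAC_stmt : Prop := ∀ (V : Type) [Fintype V] [DecidableEq V] (K : V → V → ℝ) (R : Finset V) (f : (V → Bool) → ℝ), (∀ x ∈ R, ∀ y, y ∉ R → K x y = 0 ∧ K y x = 0) →
  (∀ σ τ : V → Bool, (∀ x ∈ R, σ x = τ x) → f σ = f τ) →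
  ex K (fun _ => 0) f = ex (fun x y => if x ∈ R ∧ y ∈ R then K x y else 0) (fun _ => 0) f

/-- **CUB** (uses LZ, FAC, GKW, TRX, HHT).  Cut the bonds `(x, i)` with `((x i).val + 1) % l = 0` or `(x i).val = n - 1`: at most `d n^(d-1) (n/l + 1) ≤ 2 d N/l` bonds.  `Hc` = energy of the other bonds, `|HN - Hc| ≤ 2 d N/l`, so with
`Zc b = ∑ exp (b Hc)`: `log Zt b - log Zt (b-δ) ≤ log Zc b - log Zc (b-δ) + 4 d b N/l ≤ δ ⟨Hc⟩ + 4 d b N/l` (LZ, `⟨⟩` at `Kc` = coupling `b` on the bonds which are not cut).  For such a bond, `x` and `x + e_i` lie in the same cell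
`R = {y : (y k).val / l = (x k).val / l for all k}`, `Kc` has no coupling between `R` and its complement (a bond not cut changes the coordinate `u.val` to `u.val + 1 < n` in the same class), `R ⊆ Box l x`:
`⟨s_x s_{x+e_i}⟩ = ex (Kc 1_R) .. ≤ ex (KF b (Box l x)) .. = ex (KF b (Box l 0)) (s_0 s_{e_i})` (FAC, GKW, TRX), and these are `≥ 0`. -/
def CUB_stmt : Prop := ∀ (d n l : ℕ) [NeZero n] (b δ : ℝ), 1 ≤ d → 3 ≤ n → 1 ≤ l → l ≤ n → 0 ≤ δ → δ ≤ b →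
  Real.log (Zt d n b) - Real.log (Zt d n (b - δ)) ≤ (Fintype.card (Site d n) : ℝ) * (δ * uF d n b l + 4 * d * b / l)

/-- **ENE** (uses EPL, JEN, CUB, GKW, GK2).  EPL with `κ/4`, `a = κ/4`; `l ≥ L`, `l ≥ 16 d b/(κ δ)`; JEN with `h = a δ` (`mT ≤ 1`) and CUB: `∑ c(e_i) - a ≤ uF l + 4 d b/(l δ)`; `uP l ≤ uP L` (GKW: `univ \ Box l 0 ⊆ univ \ Box L 0`). -/
def ENE_stmt : Prop := ∀ (d : ℕ) (b κ : ℝ), 1 ≤ d → 0 < b → 0 < κ → ∃ l : ℕ, ∀ᶠ n : ℕ in atTop, uP d (n + 3) b l - uF d (n + 3) b l ≤ κ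

/-! ## D. From the energy to the magnetisation -/

/-- **PIN** (uses LPI, GK2, LIM).  LPI, GK2 with the fields `g + t 1_A`, `g' + t 1_A` (`|g' + t| ≤ g + t`), `t → ∞`. -/
def PIN_stmt : Prop := ∀ (V : Type) [Fintype V] [DecidableEq V] (K K' : V → V → ℝ) (g g' : V → ℝ) (A : Finset V), (∀ x y, |K' x y| ≤ K x y) → (∀ x, |g' x| ≤ g x) →
  (∀ x y, |exA K' g' A (fun σ => sg (σ x) * sg (σ y))| ≤ exA K g A (fun σ => sg (σ x) * sg (σ y))) ∧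
  (∀ x y, exA K g A (fun σ => sg (σ x)) * exA K g A (fun σ => sg (σ y)) ≤ exA K g A (fun σ => sg (σ x) * sg (σ y))) ∧
  (∀ x y z, |exA K g A (fun σ => sg (σ z) * sg (σ x)) * exA K' g' A (fun σ => sg (σ z) * sg (σ y)) -
      exA K' g' A (fun σ => sg (σ z) * sg (σ x)) * exA K g A (fun σ => sg (σ z) * sg (σ y))| ≤
    exA K g A (fun σ => sg (σ x) * sg (σ y)) - exA K' g' A (fun σ => sg (σ x) * sg (σ y)))

/-- **RAW** (walk; as in RAT).  `ρ = c2/c1` on the points of norm `≤ R`, `ρ 0 = 1`, `|ρ (u + e_i) - ρ u| = |c1 u c2 (u+e_i) - c2 u c1 (u+e_i)|/(c1 u c1 (u+e_i)) ≤ D/μ⁴` if both points have norm `≤ R`; induction on `nrm y`: if `y k ≠ 0`, one of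
`y ± e_k` has smaller norm (by exactly one). -/
def RAW_stmt : Prop := ∀ (d n : ℕ) [NeZero n], 3 ≤ n → ∀ (c1 c2 : Site d n → ℝ) (D μ R : ℝ), 0 < μ → 0 ≤ D → c1 0 = 1 → c2 0 = 1 → (∀ u, nrm u ≤ R → μ ^ 2 ≤ c1 u) →
  (∀ (u : Site d n) (i : Fin d), nrm u ≤ R → nrm (u + ev i) ≤ R → |c1 u * c2 (u + ev i) - c2 u * c1 (u + ev i)| ≤ D) →
  ∀ y, nrm y ≤ R → c1 y * (1 - nrm y * D / μ ^ 4) ≤ c2 y

/-- **RTM** (ratio trick; uses PIN, LZ).  `K_t = K' + t (K - K')`, `0 ≤ t ≤ 1`, `S σ = ∑ w x s_x`, `G t = log ∑_{σ ∈ pl A} exp (HH K_t 0 σ - S σ) - log ∑_{σ ∈ pl A} exp (HH K_t 0 σ + S σ)`; `G' t = ∑_{x,y} (K - K') x y (E_- s_x s_y - E_+ s_x s_y) ≤ 0`,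
`E_± = exA K_t (± w) A` (PIN (1) with `g' = -w`, `g = w`).  `G 1 ≤ G 0`, multiply out. -/
def RTM_stmt : Prop := ∀ (V : Type) [Fintype V] [DecidableEq V] (K K' : V → V → ℝ) (w : V → ℝ) (A : Finset V), (∀ x y, 0 ≤ K' x y) → (∀ x y, K' x y ≤ K x y) → (∀ x, 0 ≤ w x) →
  exA K (fun _ => 0) A (fun σ => Real.exp (-∑ x, w x * sg (σ x))) * exA K' (fun _ => 0) A (fun σ => Real.exp (∑ x, w x * sg (σ x))) ≤
    exA K' (fun _ => 0) A (fun σ => Real.exp (-∑ x, w x * sg (σ x))) * exA K (fun _ => 0) A (fun σ => Real.exp (∑ x, w x * sg (σ x)))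

/-- **PLB** (uses GKW, EXT, BXP, MSP, `CU.VF_stmt`).  `Box M 0 ⊆ Box (M + r) x`, so `exA (univ \ Box M 0) s_x ≥ exA (univ \ Box (M+r) x) s_x = ExD b (Box (M+r) x) s_x = ExD b (Box (M+r) 0) s_0 = ML d b (M+r) ≥ ms d b`. -/
def PLB_stmt : Prop := ∀ (d M r n : ℕ) (b : ℝ), 0 ≤ b → 2 * (M + r) ≤ n → ∀ x ∈ Box r (0 : Site d (n + 3)),
  ms d b ≤ exA (KT b fun _ => 0) (fun _ => 0) (univ \ Box M (0 : Site d (n + 3))) (fun σ => sg (σ x))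

/-- **B1C** (uses PLB, GKW, EXT, BXP, MSP, `CU.VF_stmt`, `CU.BC_stmt`).  `E = exA (univ \ Box M 0)`, `X = mB r`, `m = ms d b`.  `E X ≥ m` (PLB).  `L` with `ML² ≤ m² + κ₂/2`; `x, y ∈ Box r 0` not `Near (2L+1)`: `E s_x s_y ≤ exA (univ \ (Box L x ∪ Box L y)) = ML²`
(GKW, EXT, BXP; `M ≥ L + r`); the other pairs are at most `(4L+3)^d |B|` of the `|B|²`: `E X² ≤ m² + κ₂` for `r ≥ r₀` (`|B| = (2r+1)^d`).  So `E (X - m)² ≤ κ₂`, `P (X < m - κ/2) ≤ 4 κ₂/κ²`, and for `κ₂` small (depending on `a, κ`)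
`E exp (-a X) ≤ exp (-a (m - κ/2)) + exp a 4 κ₂/κ² ≤ 2 exp (-a (m - κ))`; `E exp (a X) ≥ exp (a m)` (`exp y ≥ exp (a m) (1 + y - a m)`). -/
def B1C_stmt : Prop := ∀ (d : ℕ) (b a κ : ℝ), 1 ≤ d → 0 ≤ b → 0 < a → 0 < κ → ∃ r₀ : ℕ, ∀ r, r₀ ≤ r → ∃ M₀ : ℕ, ∀ M, M₀ ≤ M → ∀ᶠ n : ℕ in atTop,
  exA (KT b fun _ => 0) (fun _ => 0) (univ \ Box M (0 : Site d (n + 3))) (fun σ => Real.exp (-(a * mB r σ))) ≤
    2 * Real.exp (-a * (2 * ms d b - κ)) * exA (KT b fun _ => 0) (fun _ => 0) (univ \ Box M (0 : Site d (n + 3))) (fun σ => Real.exp (a * mB r σ))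

/-- **EXM** (uses GKW, UPA, LZ, MSP, `CU.VF_stmt`).  `B = Box r 0`, `A = univ \ Box M 0`.  LZ on the configurations of `pl A` (`A = HH K' 0`, `B = X`, `t = a`): `log E exp (a X) ≤ a E_a X`, `E_a` = `exA K' g A` with the field `g = a/|B|` on `B`;
`E_a s_x ≤ exA (KT b) (a/|B|) A s_x ≤ ML d b L + 2 (exp (6 (a/|B|) (2L+1)^d) - 1)` for `x ∈ B`, `M ≥ L + r` (GKW, UPA with `J = 0`); `L` with `ML ≤ ms + κ/2`, then `r₀` large. -/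
def EXM_stmt : Prop := ∀ (d : ℕ) (b a κ : ℝ), 1 ≤ d → 0 ≤ b → 0 < a → 0 < κ → ∃ r₀ : ℕ, ∀ r, r₀ ≤ r → ∃ M₀ : ℕ, ∀ M, M₀ ≤ M → ∀ᶠ n : ℕ in atTop,
  ∀ K' : Site d (n + 3) → Site d (n + 3) → ℝ, (∀ x y, 0 ≤ K' x y) → (∀ x y, K' x y ≤ KT b (fun _ => 0) x y) →
  exA K' (fun _ => 0) (univ \ Box M (0 : Site d (n + 3))) (fun σ => Real.exp (a * mB r σ)) ≤ Real.exp (a * (ms d b + κ))

/-- **SEC** (uses ENE, PIN, RAW, PLB, GKW, TRX, CBX).  `m = ms d b`, `R = 2 d r`, `κ' = κ m⁴/(2 d r + 1)` in ENE, `l`; `L = M₀ = l + (2d+1) r + 2`.  `E1 = exA (KT b) 0 A`, `E2 = exA (KW b b₁ (Box L 0)) 0 A`, `A = univ \ Box M 0`.  Fix `z ∈ Box r 0`.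
A point `u` with `nrm (u - z) ≤ R` lies in `Box ((2d+1) r) 0`; for such `u` (and `u + e_i`): `E1 s_u s_{u+e_i} ≤ exA (KT b) 0 (univ \ Box l u) .. = exA (univ \ Box l 0) (s_0 s_{e_i})`, `E2 s_u s_{u+e_i} ≥ ex (KF b (Box l u)) .. = ex (KF b (Box l 0)) (s_0 s_{e_i})`
(GKW, TRX), so `E1 - E2 ≤ uP l - uF l ≤ κ'` (all terms of the sum over `i` are `≥ 0`).  RAW for `c_j y = E_j s_z s_{z+y}`, `μ = m` (`c1 ≥ E1 s_z E1 s_u ≥ m²`: PIN, PLB; the difference condition: PIN (3)): for `y ∈ Box r 0`,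
`E2 s_z s_y ≥ m² (1 - R κ'/m⁴) ≥ m² - κ` (CBX: `nrm (y - z) ≤ 2 d r`; `m ≤ 1`).  Average over `z, y ∈ Box r 0`. -/
def SEC_stmt : Prop := ∀ (d r : ℕ) (b b₁ κ : ℝ), 1 ≤ d → 0 < b → 0 ≤ b₁ → b₁ ≤ b → 0 < ms d b → 0 < κ → ∃ L M₀ : ℕ, ∀ M, M₀ ≤ M → ∀ᶠ n : ℕ in atTop,
  ms d b ^ 2 - κ ≤ exA (KW b b₁ (Box L (0 : Site d (n + 3)))) (fun _ => 0) (univ \ Box M 0) (fun σ => mB r σ ^ 2)

/-- **PRB** (probability; `E Y = ∑ w Y/∑ w`).  `κ' = min (ε/4) (m₁/4)`, `κ₃ = κ' m` (so `(m - κ')² ≤ m² - κ₃`), `κ₁, κ` small, `a` large.  `P(Y ≤ -(m-κ')) ≤ exp (-a (m-κ')) E exp (-aY) ≤ 2 exp (-a (2m₁ - 2κ - κ')) ≤ 2 exp (-a m₁)` (`2κ + κ' ≤ m₁`);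
`P(Y ≥ m + κ₁) ≤ exp (-a (κ₁ - κ))`; `m² - κ ≤ E Y² ≤ (m+κ₁)² - κ₃ P(Y² < m² - κ₃) + P(Y ≥ m+κ₁) + P(Y ≤ -(m-κ'))`, so `P(Y² < m² - κ₃) ≤ (κ + 3κ₁ + P + P)/κ₃`.  Off these events `Y ≥ m - κ'`; `E Y ≥ m - κ' - 2 P(events) ≥ m - ε`.
(Choose `κ₁ = ε κ₃/100`, `κ = min (κ₁/2) (m₁/4)`.) -/
def PRB_stmt : Prop := ∀ m m₁ ε : ℝ, 0 < m₁ → m₁ ≤ m → m ≤ 1 → 0 < ε → ∃ a κ : ℝ, 0 < a ∧ 0 < κ ∧ ∀ (X : Type) [Fintype X] (w Y : X → ℝ), (∀ x, 0 ≤ w x) → 0 < ∑ x, w x →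
  (∀ x, |Y x| ≤ 1) → (m ^ 2 - κ) * ∑ x, w x ≤ ∑ x, w x * Y x ^ 2 → ∑ x, w x * Real.exp (a * Y x) ≤ Real.exp (a * (m + κ)) * ∑ x, w x →
  ∑ x, w x * Real.exp (-(a * Y x)) ≤ 2 * Real.exp (-a * (2 * m₁ - κ)) * ∑ x, w x * Real.exp (a * Y x) → (m - ε) * ∑ x, w x ≤ ∑ x, w x * Y x

/-- **WIB** (uses PRB, B1C, EXM, SEC, RTM, MSP).  `m = ms d b`, `m₁ = ms d b₁ ≤ m` (MSP); `a, κ` from PRB; `r` = maximum of the `r₀` of B1C (at `b₁`) and EXM (at `b`); `L` from SEC; `M, n` large.  `K = KW b b₁ (Box L 0)`, `KT b₁ ≤ K ≤ KT b`.  RTM with `K' = KT b₁`,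
`w = a/|B|` on `B = Box r 0` and `0` elsewhere (`∑ w s = a mB r`), divide by `exA K' exp (aX) > 0`.  PRB with weights `exp (HH K 0 σ)` on `pl A`, `0` elsewhere. -/
def WIB_stmt : Prop := ∀ (d : ℕ) (b b₁ ε : ℝ), 1 ≤ d → 0 ≤ b₁ → b₁ < b → 0 < ms d b₁ → 0 < ε → ∃ L r M₀ : ℕ, ∀ M, M₀ ≤ M → ∀ᶠ n : ℕ in atTop,
  ms d b - ε ≤ exA (KW b b₁ (Box L (0 : Site d (n + 3)))) (fun _ => 0) (univ \ Box M 0) (fun σ => mB r σ)

/-- **WIN** (uses WIB, GKW, TRX).  From WIB for `M + r`: some `x ∈ Box r 0` has `exA (KW b b₁ (Box L 0)) (univ \ Box (M+r) 0) s_x ≥ m - ε`; by GKW it is at most `exA (KW b b₁ (Box (L+r) x)) (univ \ Box M x) s_x` (`Box L 0 ⊆ Box (L+r) x`, `Box M x ⊆ Box (M+r) 0`),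
`= exA (KW b b₁ (Box (L+r) 0)) (univ \ Box M 0) s_0` (TRX with `a = x`). -/
def WIN_stmt : Prop := ∀ (d : ℕ) (b b₁ ε : ℝ), 1 ≤ d → 0 ≤ b₁ → b₁ < b → 0 < ms d b₁ → 0 < ε → ∃ L M₀ : ℕ, ∀ M, M₀ ≤ M → ∀ᶠ n : ℕ in atTop,
  ms d b - ε ≤ exA (KW b b₁ (Box L (0 : Site d (n + 3)))) (fun _ => 0) (univ \ Box M 0) (fun σ => sg (σ 0))

/-- **CNW** (uses PTB, `CU.BC_stmt`).  The energies differ by `(b - b') ∑ (bonds inside Box L 0)`, at most `(b - b') d (2L+1)^d` in absolute value; PTB on `S = pl A`. -/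
def CNW_stmt : Prop := ∀ (d L : ℕ) (b b₁ ε : ℝ), 0 ≤ b₁ → b₁ < b → 0 < ε → ∃ b' : ℝ, b₁ < b' ∧ b' < b ∧ ∀ M n : ℕ,
  exA (KW b b₁ (Box L (0 : Site d (n + 3)))) (fun _ => 0) (univ \ Box M 0) (fun σ => sg (σ 0)) - ε ≤
    exA (KW b' b₁ (Box L (0 : Site d (n + 3)))) (fun _ => 0) (univ \ Box M 0) (fun σ => sg (σ 0))

/-- **LCT** (uses WIN, CNW, GKW, EXT, MSP, `CU.VF_stmt`).  `L` from WIN (`ε/3`), `b'` from CNW (`ε/3`).  For `M` large with `ML d b' M ≤ ms d b' + ε/3` (MSP) and then `n` large: `ML d b' M = exA (KT b') 0 (univ \ Box M 0) s_0 ≥ exA (KW b' b₁ (Box L 0)) .. ≥ ms d b - 2ε/3`. -/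
def LCT_stmt : Prop := ∀ (d : ℕ) (b₁ β : ℝ), 1 ≤ d → 0 ≤ b₁ → b₁ < β → 0 < ms d b₁ → LC d β

/-- **RS2** (uses RES, LCT, MSP, `CU.VH_stmt`). -/
def RS2_stmt : Prop := ∀ (d : ℕ) (β₁ β : ℝ), 2 ≤ d → 0 ≤ β₁ → β₁ < β →
  (∃ μ ν : MeasureTheory.Measure (ZConf d), IsGibbs d β₁ 0 μ ∧ IsGibbs d β₁ 0 ν ∧ μ ≠ ν) → ¬ Cutoff d β 0

end CO
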